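import Mathlib
import Pool.Agent.Helper894.Collatz

set_option autoImplicit false

namespace Pool.Agent.H377R2

open Finset Pool.Agent.Helper894.Collatz

theorem T_pos {n : ℕ} (h : 0 < n) : 0 < T n := by
  unfold T; split_ifs <;> omega

theorem iter_pos {n : ℕ} (h : 0 < n) (m : ℕ) : 0 < T^[m] n := by
  induction m with
  | zero => simpa using h
  | succ m ih => rw [Function.iterate_succ_apply']; exact T_pos ih

theorem od_one (z : ℕ) : od 1 z = z % 2 := by simp [od]

/-- the growth factor is at most one after a point that lies above the end point -/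
theorem pow_le_of_le {r z : ℕ} (hz : 0 < z) (h : T^[r] z ≤ z) : 3 ^ od r z ≤ 2 ^ r := by
  have h1 := iter_eq r z
  have h2 : 3 ^ od r z * z ≤ 2 ^ r * z := by
    calc 3 ^ od r z * z ≤ 3 ^ od r z * z + er r z := Nat.le_add_right _ _
      _ = 2 ^ r * T^[r] z := h1.symm
      _ ≤ 2 ^ r * z := Nat.mul_le_mul_left _ h
  exact Nat.le_of_mul_le_mul_right h2 hz

/-- The error term is small when the end point is a minimum of the segment. -/
theorem er_le {m x : ℕ} (hx : 0 < x) (h : ∀ i < m, T^[m] x ≤ T^[i] x) :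
    2 * er m x ≤ m * 2 ^ m := by
  have key : ∀ i, i ≤ m → 2 * (er i x * 3 ^ od (m - i) (T^[i] x)) ≤ i * 2 ^ m := by
    intro i
    induction i with
    | zero => intro _; simp [er]
    | succ i ih =>
      intro hi
      have ih' := ih (by omega)
      obtain ⟨r, hr⟩ : ∃ r, m - i = 1 + r := ⟨m - i - 1, by omega⟩
      have hr' : m - (i + 1) = r := by omega
      have hod : od (m - i) (T^[i] x) = (T^[i] x) % 2 + od r (T^[i + 1] x) := by
        have e0 : T^[1] (T^[i] x) = T^[i + 1] x := by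
          rw [← Function.iterate_add_apply, add_comm]
        rw [hr, od_add, od_one, e0]
      rw [hod] at ih'
      rw [hr']
      have hp : 3 ^ od r (T^[i + 1] x) ≤ 2 ^ r := by
        apply pow_le_of_le (iter_pos hx _)
        rw [← Function.iterate_add_apply]
        have e : r + (i + 1) = m := by omega
        rw [e]
        rcases Nat.lt_or_ge (i + 1) m with h1 | h1
        · exact h _ h1
        · have : i + 1 = m := by omega
          rw [this]
      rw [er_succ]
      rcases Nat.mod_two_eq_zero_or_one (T^[i] x) with h0 | h0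
      · rw [if_pos h0]
        rw [h0, zero_add] at ih'
        refine ih'.trans (Nat.mul_le_mul_right _ (Nat.le_succ i))
      · rw [if_neg (by omega)]
        rw [h0, pow_add, pow_one] at ih'
        have e1 : 2 * ((3 * er i x + 2 ^ i) * 3 ^ od r (T^[i + 1] x)) =
            2 * (er i x * (3 * 3 ^ od r (T^[i + 1] x))) + 2 ^ (i + 1) * 3 ^ od r (T^[i + 1] x) := by
          ring
        have e2 : 2 ^ (i + 1) * 3 ^ od r (T^[i + 1] x) ≤ 2 ^ m := by
          calc 2 ^ (i + 1) * 3 ^ od r (T^[i + 1] x) ≤ 2 ^ (i + 1) * 2 ^ r :=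
                Nat.mul_le_mul_left _ hp
            _ = 2 ^ m := by rw [← pow_add]; congr 1; omega
        rw [e1, add_mul, one_mul]
        omega
  have := key m le_rfl
  simpa [od] using this

/-- Few starting points share the end point, the length and the number of odd steps. -/
theorem card_fiber (N m A y : ℕ) :
    ((range N).filter (fun x => T^[m] x = y ∧ od m x = A ∧ 2 * er m x ≤ m * 2 ^ m)).card ≤
      m * 2 ^ m / (2 * 3 ^ A) + 1 := by
  set S := (range N).filter (fun x => T^[m] x = y ∧ od m x = A ∧ 2 * er m x ≤ m * 2 ^ m) with hS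
  rcases S.eq_empty_or_nonempty with h0 | h0
  · rw [h0]; simp
  · set a := S.min' h0 with ha
    have ha' : a ∈ S := S.min'_mem h0
    have hsub : S ⊆ Icc a (a + m * 2 ^ m / (2 * 3 ^ A)) := by
      intro x hx
      have h1 : a ≤ x := S.min'_le x hx
      rw [hS, mem_filter] at hx ha'
      obtain ⟨_, hx1, hx2, hx3⟩ := hx
      obtain ⟨_, ha1, ha2, ha3⟩ := ha'
      rw [mem_Icc]
      refine ⟨h1, ?_⟩
      have e1 := iter_eq m x
      have e2 := iter_eq m a
      rw [hx1, hx2] at e1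
      rw [ha1, ha2] at e2
      obtain ⟨d, rfl⟩ := Nat.exists_eq_add_of_le h1
      apply Nat.add_le_add_left
      rw [Nat.le_div_iff_mul_le (by positivity)]
      have e3 : 3 ^ A * (a + d) = 3 ^ A * a + 3 ^ A * d := by ring
      have e4 : d * (2 * 3 ^ A) = 2 * (3 ^ A * d) := by ring
      rw [e4]
      omega
    calc S.card ≤ (Icc a (a + m * 2 ^ m / (2 * 3 ^ A))).card := card_le_card hsub
      _ = m * 2 ^ m / (2 * 3 ^ A) + 1 := by
          rw [Nat.card_Icc]
          generalize m * 2 ^ m / (2 * 3 ^ A) = c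
          omega

/-- `x` is at its first passage below `2 ^ i` after exactly `m` steps -/
def FP (i m x : ℕ) : Prop := (∀ j < m, 2 ^ i ≤ T^[j] x) ∧ T^[m] x < 2 ^ i

instance (i m x : ℕ) : Decidable (FP i m x) := by unfold FP; infer_instance

theorem FP.le {i m x : ℕ} (h : FP i m x) : ∀ j < m, T^[m] x ≤ T^[j] x :=
  fun j hj => (h.2.trans_le (h.1 j hj)).le

/-- size relations at a first passage -/
theorem FP.size {i k m x : ℕ} (h : FP i m x) (hx : 0 < x) (hk : x < 2 ^ k)
    (hik : i ≤ k) (hy : 2 ^ i ≤ 2 * T^[m] x) (hm : m ≤ T^[m] x) :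
    3 ^ od m x ≤ 2 ^ m ∧ 2 ^ m ≤ 3 ^ od m x * 2 ^ (k - i + 2) := by
  constructor
  · apply pow_le_of_le hx
    rcases Nat.eq_zero_or_pos m with h0 | h0
    · rw [h0]; simp
    · exact h.le 0 h0
  · have h1 := er_le hx h.le
    have h2 := iter_eq m x
    set y := T^[m] x
    set e := er m x
    have h3 : 2 * (2 ^ m * y) ≤ 2 * (3 ^ od m x * 2 ^ k) + y * 2 ^ m := by
      have a1 : 3 ^ od m x * x ≤ 3 ^ od m x * 2 ^ k := Nat.mul_le_mul_left _ hk.le
      have a2 : m * 2 ^ m ≤ y * 2 ^ m := Nat.mul_le_mul_right _ hm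
      omega
    have h4 : 2 ^ m * y ≤ 2 * (3 ^ od m x * 2 ^ k) := by
      have : y * 2 ^ m = 2 ^ m * y := mul_comm _ _
      omega
    have h5 : 2 ^ m * 2 ^ i ≤ 4 * (3 ^ od m x * 2 ^ k) := by
      calc 2 ^ m * 2 ^ i ≤ 2 ^ m * (2 * y) := Nat.mul_le_mul_left _ hy
        _ = 2 * (2 ^ m * y) := by ring
        _ ≤ 2 * (2 * (3 ^ od m x * 2 ^ k)) := Nat.mul_le_mul_left _ h4
        _ = _ := by ring
    have h6 : 4 * (3 ^ od m x * 2 ^ k) = 3 ^ od m x * 2 ^ (k - i + 2) * 2 ^ i := by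
      have : (2 : ℕ) ^ k = 2 ^ (k - i) * 2 ^ i := by rw [← pow_add]; congr 1; omega
      rw [this, pow_add]; ring
    rw [h6] at h5
    exact Nat.le_of_mul_le_mul_right h5 (by positivity)

/-- sum of powers of two bounded by `Q` -/
theorem sum_two_pow_le (M Q : ℕ) : ∑ m ∈ (range (M + 1)).filter (fun m => 2 ^ m ≤ Q), 2 ^ m ≤ 2 * Q := by
  rcases Nat.eq_zero_or_pos Q with h0 | h0
  · subst h0
    rw [filter_false_of_mem]
    · simp
    · intro m _; have : 0 < 2 ^ m := by positivity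
      omega
  · have hsub : (range (M + 1)).filter (fun m => 2 ^ m ≤ Q) ⊆ range (Nat.log 2 Q + 1) := by
      intro m hm
      rw [mem_filter] at hm
      rw [mem_range]
      have := Nat.le_log_of_pow_le (by norm_num) hm.2
      omega
    calc ∑ m ∈ (range (M + 1)).filter (fun m => 2 ^ m ≤ Q), 2 ^ m
        ≤ ∑ m ∈ range (Nat.log 2 Q + 1), 2 ^ m := sum_le_sum_of_subset hsub
      _ ≤ 2 ^ (Nat.log 2 Q + 1) := by
          have := Nat.geomSum_lt (m := 2) (n := Nat.log 2 Q + 1) (s := range (Nat.log 2 Q + 1))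
            le_rfl (fun k hk => mem_range.1 hk)
          exact this.le
      _ ≤ 2 * Q := by
          rw [pow_succ, mul_comm]
          exact Nat.mul_le_mul_left _ (Nat.pow_log_le_self 2 h0.ne')

/-- the number of starting points for one end point and one number of odd steps -/
theorem sum_fiber (A D M : ℕ) :
    ∑ m ∈ (range (M + 1)).filter (fun m => 3 ^ A ≤ 2 ^ m ∧ 2 ^ m ≤ 3 ^ A * 2 ^ D),
      (m * 2 ^ m / (2 * 3 ^ A) + 1) ≤ (M + 2) * 2 ^ D := by
  have hpos : 0 < 2 * 3 ^ A := by positivity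
  refine Nat.le_of_mul_le_mul_left (c := 2 * 3 ^ A) ?_ hpos
  rw [mul_sum]
  have h1 : ∀ m ∈ (range (M + 1)).filter (fun m => 3 ^ A ≤ 2 ^ m ∧ 2 ^ m ≤ 3 ^ A * 2 ^ D),
      2 * 3 ^ A * (m * 2 ^ m / (2 * 3 ^ A) + 1) ≤ (M + 2) * 2 ^ m := by
    intro m hm
    rw [mem_filter, mem_range] at hm
    have a1 : 2 * 3 ^ A * (m * 2 ^ m / (2 * 3 ^ A)) ≤ m * 2 ^ m := Nat.mul_div_le _ _
    have a2 : m * 2 ^ m ≤ M * 2 ^ m := Nat.mul_le_mul_right _ (by omega)
    rw [mul_add, mul_one, add_mul]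
    omega
  refine (sum_le_sum h1).trans ?_
  rw [← mul_sum]
  have h2 : ∑ m ∈ (range (M + 1)).filter (fun m => 3 ^ A ≤ 2 ^ m ∧ 2 ^ m ≤ 3 ^ A * 2 ^ D), 2 ^ m ≤
      2 * (3 ^ A * 2 ^ D) := by
    refine le_trans (sum_le_sum_of_subset ?_) (sum_two_pow_le M (3 ^ A * 2 ^ D))
    intro m hm
    rw [mem_filter] at hm ⊢
    exact ⟨hm.1, hm.2.2⟩
  calc (M + 2) * ∑ m ∈ (range (M + 1)).filter (fun m => 3 ^ A ≤ 2 ^ m ∧ 2 ^ m ≤ 3 ^ A * 2 ^ D), 2 ^ m
      ≤ (M + 2) * (2 * (3 ^ A * 2 ^ D)) := Nat.mul_le_mul_left _ h2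
    _ = 2 * 3 ^ A * ((M + 2) * 2 ^ D) := by ring

theorem od_le (m x : ℕ) : od m x ≤ m := by
  unfold od
  calc ∑ i ∈ range m, (T^[i] x) % 2 ≤ ∑ i ∈ range m, 1 :=
        sum_le_sum (fun i _ => by omega)
    _ = m := by simp

/-- **The multiplicity bound.** A set `B` of points in `[2^(i-1), 2^i)` receives, by first passage
below `2^i` within `M` steps, at most `(M+1)(M+2) 2^(k-i+2) |B|` of the points of `(0, 2^k)`. -/
theorem card_passage (k i M : ℕ) (hik : i ≤ k) (hM : 2 * M ≤ 2 ^ i) (B : Finset ℕ)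
    (hB : ∀ y ∈ B, 2 ^ i ≤ 2 * y) :
    ((range (2 ^ k)).filter (fun x => 0 < x ∧ ∃ m ≤ M, FP i m x ∧ T^[m] x ∈ B)).card ≤
      B.card * ((M + 1) * ((M + 2) * 2 ^ (k - i + 2))) := by
  classical
  set D := k - i + 2 with hD
  have hsub : (range (2 ^ k)).filter (fun x => 0 < x ∧ ∃ m ≤ M, FP i m x ∧ T^[m] x ∈ B) ⊆
      B.biUnion (fun y => (range (M + 1)).biUnion (fun A =>
        ((range (M + 1)).filter (fun m => 3 ^ A ≤ 2 ^ m ∧ 2 ^ m ≤ 3 ^ A * 2 ^ D)).biUnion
          (fun m => (range (2 ^ k)).filter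
            (fun x => T^[m] x = y ∧ od m x = A ∧ 2 * er m x ≤ m * 2 ^ m)))) := by
    intro x hx
    rw [mem_filter, mem_range] at hx
    obtain ⟨hxk, hx0, m, hm, hfp, hB'⟩ := hx
    simp only [mem_biUnion, mem_filter, mem_range]
    have hy := hB _ hB'
    obtain ⟨s1, s2⟩ := hfp.size hx0 hxk hik hy (by omega)
    have := od_le m x
    exact ⟨T^[m] x, hB', od m x, by omega, m, ⟨by omega, s1, s2⟩, hxk, rfl, rfl,
      er_le hx0 hfp.le⟩
  refine (card_le_card hsub).trans ?_
  refine card_biUnion_le.trans ?_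
  refine (sum_le_sum (g := fun _ => (M + 1) * ((M + 2) * 2 ^ D)) fun y _ => ?_).trans ?_
  · refine card_biUnion_le.trans ?_
    refine (sum_le_sum (g := fun _ => (M + 2) * 2 ^ D) fun A _ => ?_).trans ?_
    · refine card_biUnion_le.trans ?_
      refine (sum_le_sum fun m _ => card_fiber (2 ^ k) m A y).trans ?_
      exact sum_fiber A D M
    · rw [sum_const, card_range, smul_eq_mul]
  · rw [sum_const, smul_eq_mul]

end Pool.Agent.H377R2
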