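import Mathlib
import Pool.Agent.H377R2.Fp

set_option autoImplicit false

namespace Pool.Agent.H377R2

open Finset Pool.Agent.Helper894.Collatz

/-- the points of `[2^(i-1), 2^i)` that may fail to go below `2^(i-1)` within `s` steps -/
def stuck (i s : ℕ) : Finset ℕ :=
  (range (2 ^ i)).filter (fun y => 2 ^ i ≤ 2 * y ∧ 2 ^ s < 2 * 3 ^ od s y)

theorem sum_pow_od_block (s c : ℕ) (z : ℝ) :
    ∑ y ∈ range (2 ^ s * c), z ^ (od s y) = c * (1 + z) ^ s := by
  induction c with
  | zero => simp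
  | succ c ih =>
    rw [mul_add, mul_one, sum_range_add, ih]
    have : ∑ x ∈ range (2 ^ s), z ^ od s (2 ^ s * c + x) = ∑ x ∈ range (2 ^ s), z ^ od s x := by
      apply sum_congr rfl
      intro x _
      rw [add_comm, (period s x c).2.1]
    rw [this, sum_pow_od]
    push_cast; ring

/-- the base of the Chernoff bound -/
noncomputable def w : ℝ := 126 / 125

noncomputable def rho : ℝ := (1 + w ^ 65) / (2 * w ^ 41)

theorem rho_pos : 0 < rho := by unfold rho w; positivity

theorem rho_pow : rho ^ 41 ≤ 1 / 4 := by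
  unfold rho w
  norm_num

theorem rho_lt_one : rho < 1 := by
  unfold rho w
  norm_num

theorem card_stuck (i s : ℕ) (h : s ≤ i) :
    ((stuck i s).card : ℝ) ≤ 2 * 2 ^ i * rho ^ s := by
  obtain ⟨c, rfl⟩ := Nat.exists_eq_add_of_le h
  have hw : (1 : ℝ) ≤ w := by unfold w; norm_num
  have hw0 : (0 : ℝ) < w := by linarith
  -- each element has many odd steps
  have h1 : ∀ y ∈ stuck (s + c) s, w ^ (41 * s) ≤ w ^ 41 * (w ^ 65) ^ od s y := by
    intro y hy
    rw [stuck, mem_filter] at hy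
    have h2 := hy.2.2
    rw [← pow_mul, ← pow_add]
    apply pow_le_pow_right₀ hw
    -- `2 ^ (41 s) < 2 ^ 41 * 3 ^ (41 a) ≤ 2 ^ (41 + 65 a)`
    have h3 : 2 ^ (41 * s) < 2 ^ (41 + 65 * od s y) := by
      calc 2 ^ (41 * s) = (2 ^ s) ^ 41 := by rw [← pow_mul, mul_comm]
        _ < (2 * 3 ^ od s y) ^ 41 := Nat.pow_lt_pow_left h2 (by norm_num)
        _ = 2 ^ 41 * (3 ^ 41) ^ od s y := by rw [mul_pow, ← pow_mul, ← pow_mul, mul_comm 41]
        _ ≤ 2 ^ 41 * (2 ^ 65) ^ od s y :=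
            Nat.mul_le_mul_left _ (Nat.pow_le_pow_left (by norm_num) _)
        _ = 2 ^ (41 + 65 * od s y) := by rw [pow_add, ← pow_mul]
    exact ((Nat.pow_lt_pow_iff_right (by norm_num)).1 h3).le
  have h4 : ((stuck (s + c) s).card : ℝ) * w ^ (41 * s) ≤
      w ^ 41 * ((2 ^ c : ℕ) * (1 + w ^ 65) ^ s) := by
    rw [← sum_pow_od_block, ← pow_add, mul_sum, ← nsmul_eq_mul, ← sum_const]
    refine (sum_le_sum h1).trans ?_
    apply sum_le_sum_of_subset_of_nonneg
    · exact filter_subset _ _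
    · intro y _ _; positivity
  have h5 : w ^ 41 ≤ 2 := by unfold w; norm_num
  have hp : 0 < w ^ (41 * s) := by positivity
  refine le_of_mul_le_mul_right (h4.trans ?_) hp
  have e1 : rho ^ s * w ^ (41 * s) * 2 ^ s = (1 + w ^ 65) ^ s := by
    unfold rho
    rw [pow_mul, ← mul_pow, ← mul_pow]
    congr 1
    field_simp
  have e2 : (2 : ℝ) * 2 ^ (s + c) * rho ^ s * w ^ (41 * s) =
      2 * (2 ^ c * (rho ^ s * w ^ (41 * s) * 2 ^ s)) := by ring
  rw [e2, e1]
  push_cast
  exact mul_le_mul_of_nonneg_right h5 (by positivity)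

/-- outside of the stuck set the walk passes to the next level -/
theorem pass_next {i s y : ℕ} (hs : s ≤ i) (hy : y < 2 ^ i) (hy2 : 2 ^ i ≤ 2 * y)
    (h : y ∉ stuck i s) (hi : 0 < i) : T^[s] y < 2 ^ (i - 1) := by
  have h1 : 2 * 3 ^ od s y ≤ 2 ^ s := by
    by_contra hcon
    apply h
    rw [stuck, mem_filter, mem_range]
    exact ⟨hy, hy2, by omega⟩
  obtain ⟨c, rfl⟩ := Nat.exists_eq_add_of_le hs
  have h2 := lt_pow s y (2 ^ c) (by rwa [← pow_add])
  have h3 : 2 * (3 ^ od s y * 2 ^ c) ≤ 2 ^ (s + c) := by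
    calc 2 * (3 ^ od s y * 2 ^ c) = (2 * 3 ^ od s y) * 2 ^ c := by ring
      _ ≤ 2 ^ s * 2 ^ c := Nat.mul_le_mul_right _ h1
      _ = 2 ^ (s + c) := by rw [pow_add]
  have h4 : 2 ^ (s + c) = 2 * 2 ^ (s + c - 1) := by
    rw [← pow_succ']; congr 1; omega
  omega

theorem fp_step {i s m x : ℕ} (hs : s ≤ i) (hi : 0 < i) (h : FP i m x)
    (hns : T^[m] x ∉ stuck i s) : ∃ m' ≤ m + s, FP (i - 1) m' x := by
  have hpow : 2 ^ i = 2 * 2 ^ (i - 1) := by rw [← pow_succ']; congr 1; omega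
  rcases Nat.lt_or_ge (T^[m] x) (2 ^ (i - 1)) with h1 | h1
  · exact ⟨m, by omega, fun j hj => by have := h.1 j hj; omega, h1⟩
  · have h2 := pass_next hs h.2 (by omega) hns hi
    classical
    have hex : ∃ r, T^[r] (T^[m] x) < 2 ^ (i - 1) := ⟨s, h2⟩
    refine ⟨m + Nat.find hex, Nat.add_le_add_left (Nat.find_min' hex h2) _, ?_, ?_⟩
    · intro j hj
      rcases Nat.lt_or_ge j m with h3 | h3
      · have := h.1 j h3; omega
      · obtain ⟨r, rfl⟩ := Nat.exists_eq_add_of_le h3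
        have := Nat.find_min hex (m := r) (by omega)
        rw [← Function.iterate_add_apply, add_comm] at this
        omega
    · have := Nat.find_spec hex
      rwa [← Function.iterate_add_apply, add_comm] at this

/-- the bad set of level `i` -/
def bad (k i s M : ℕ) : Finset ℕ :=
  (range (2 ^ k)).filter (fun x => 0 < x ∧ ∃ m ≤ M, FP i m x ∧ T^[m] x ∈ stuck i (min i s))

theorem descend {k l s x : ℕ} (hx : 0 < x) (hxk : x < 2 ^ k)
    (h : ∀ i, l < i → i ≤ k → x ∉ bad k i s (k * s)) :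
    ∀ d, l + d ≤ k → ∃ m ≤ (k - (k - d)) * s, FP (k - d) m x := by
  intro d
  induction d with
  | zero => intro _; exact ⟨0, by simp, by intro j hj; omega, by simpa using hxk⟩
  | succ d ih =>
    intro hd
    obtain ⟨m, hm, hfp⟩ := ih (by omega)
    have hm' : m ≤ d * s := by
      have : k - (k - d) = d := by omega
      rwa [this] at hm
    have hmM : m ≤ k * s := hm'.trans (Nat.mul_le_mul_right _ (by omega))
    have hns : T^[m] x ∉ stuck (k - d) (min (k - d) s) := by
      intro hcon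
      apply h (k - d) (by omega) (by omega)
      rw [bad, mem_filter, mem_range]
      exact ⟨hxk, hx, m, hmM, hfp, hcon⟩
    obtain ⟨m', h1, h2⟩ := fp_step (min_le_left _ _) (by omega) hfp hns
    refine ⟨m', ?_, by rwa [Nat.sub_sub] at h2⟩
    have e : k - (k - (d + 1)) = d + 1 := by omega
    rw [e, add_mul, one_mul]
    have : min (k - d) s ≤ s := min_le_right _ _
    omega

/-- the points that stay above `2 ^ l` -/
theorem card_stay (k l s : ℕ) (hlk : l ≤ k) (hM : k * s ≤ 2 ^ l) (S : Finset ℕ)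
    (hS : ∀ x ∈ S, 0 < x ∧ x < 2 ^ k ∧ ∀ m, 2 ^ l ≤ T^[m] x) :
    (S.card : ℝ) ≤ 8 * (k * s + 2) ^ 2 * 2 ^ k * ∑ i ∈ Ioc l k, rho ^ (min i s) := by
  have hsub : S ⊆ (Ioc l k).biUnion (fun i => bad k i s (k * s)) := by
    intro x hx
    have hx := hS x hx
    by_contra hcon
    simp only [mem_biUnion, mem_Ioc, not_exists, not_and] at hcon
    obtain ⟨m, -, h⟩ := descend (l := l) hx.1 hx.2.1
      (fun i h1 h2 => hcon i ⟨h1, h2⟩) (k - l) (by omega)
    have h1 := h.2
    have h2 := hx.2.2 m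
    have e : k - (k - l) = l := by omega
    rw [e] at h1
    omega
  have h1 : S.card ≤
      ∑ i ∈ Ioc l k, (bad k i s (k * s)).card := (card_le_card hsub).trans card_biUnion_le
  have h2 : ∀ i ∈ Ioc l k, ((bad k i s (k * s)).card : ℝ) ≤
      8 * (k * s + 2) ^ 2 * 2 ^ k * rho ^ (min i s) := by
    intro i hi
    rw [mem_Ioc] at hi
    have hM' : 2 * (k * s) ≤ 2 ^ i := by
      calc 2 * (k * s) ≤ 2 * 2 ^ l := Nat.mul_le_mul_left _ hM
        _ = 2 ^ (l + 1) := by rw [pow_succ']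
        _ ≤ 2 ^ i := Nat.pow_le_pow_right (by norm_num) hi.1
    have a1 := card_passage k i (k * s) hi.2 hM' (stuck i (min i s)) (by
      intro y hy
      rw [stuck, mem_filter] at hy
      exact hy.2.1)
    have a2 := card_stuck i (min i s) (min_le_left _ _)
    have a3 : ((bad k i s (k * s)).card : ℝ) ≤
        (stuck i (min i s)).card * ((k * s + 1) * ((k * s + 2) * 2 ^ (k - i + 2))) := by
      exact_mod_cast a1
    refine a3.trans ?_
    have hr : 0 ≤ rho ^ (min i s) := pow_nonneg rho_pos.le _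
    have a4 : (2 : ℝ) ^ i * 2 ^ (k - i + 2) = 4 * 2 ^ k := by
      rw [← pow_add]
      have : i + (k - i + 2) = k + 2 := by omega
      rw [this, pow_add]; ring
    calc ((stuck i (min i s)).card : ℝ) * ((k * s + 1) * ((k * s + 2) * 2 ^ (k - i + 2)))
        ≤ (2 * 2 ^ i * rho ^ (min i s)) * ((k * s + 2) * ((k * s + 2) * 2 ^ (k - i + 2))) := by
          apply mul_le_mul a2 _ (by positivity) (by positivity)
          apply mul_le_mul_of_nonneg_right _ (by positivity)
          linarith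
      _ = 2 * ((k * s + 2) ^ 2 * rho ^ (min i s) * (2 ^ i * 2 ^ (k - i + 2))) := by ring
      _ = _ := by rw [a4]; ring
  calc (S.card : ℝ)
      ≤ ∑ i ∈ Ioc l k, ((bad k i s (k * s)).card : ℝ) := by exact_mod_cast h1
    _ ≤ ∑ i ∈ Ioc l k, 8 * (k * s + 2) ^ 2 * 2 ^ k * rho ^ (min i s) := sum_le_sum h2
    _ = _ := by rw [mul_sum]

end Pool.Agent.H377R2
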